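import Pool.Agent.H34.TAM.Stmts2

/-!
Board aut, row PDX: the free difference quotients of the free algebra exist.  The algebra map to the
two by two matrices over the tensor square with diagonal entries `a ⊗ 1` and `1 ⊗ a`; the corner entry
is the derivation.
-/

set_option autoImplicit false

noncomputable section

open scoped TensorProduct

namespace Pool.AUT

open Pool.CGR Pool.CGS Pool.TAM MulOpposite

namespace H18

/-- The tensor square. -/
abbrev EE (m : ℕ) : Type := Fr m ⊗[ℂ] Fr m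

/-- The algebra map to matrices. -/
def mm (m : ℕ) (k : Fin m) : Fr m →ₐ[ℂ] Matrix (Fin 2) (Fin 2) (EE m) :=
  FreeAlgebra.lift ℂ fun j =>
    !![io j ⊗ₜ[ℂ] (1 : Fr m), if j = k then 1 else 0; 0, (1 : Fr m) ⊗ₜ[ℂ] io j]

theorem mm_io (m : ℕ) (k j : Fin m) : mm m k (io j) =
    !![io j ⊗ₜ[ℂ] (1 : Fr m), if j = k then 1 else 0; 0, (1 : Fr m) ⊗ₜ[ℂ] io j] := by
  simp [mm]

theorem mm_diag (m : ℕ) (k : Fin m) (a : Fr m) : mm m k a 1 0 = 0 ∧
    mm m k a 0 0 = a ⊗ₜ[ℂ] (1 : Fr m) ∧ mm m k a 1 1 = (1 : Fr m) ⊗ₜ[ℂ] a := by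
  induction a using FreeAlgebra.induction with
  | grade0 r =>
    rw [AlgHom.commutes, Matrix.algebraMap_matrix_apply, Matrix.algebraMap_matrix_apply,
      Matrix.algebraMap_matrix_apply]
    refine ⟨by simp, ?_, ?_⟩
    · rw [if_pos rfl, Algebra.TensorProduct.algebraMap_apply]
    · rw [if_pos rfl, Algebra.TensorProduct.algebraMap_apply, Algebra.algebraMap_eq_smul_one,
        TensorProduct.smul_tmul]
  | grade1 j =>
    have h := mm_io m k j
    simp only [io] at h
    rw [h]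
    simp
  | mul a b ha hb =>
    obtain ⟨ha1, ha2, ha3⟩ := ha
    obtain ⟨hb1, hb2, hb3⟩ := hb
    rw [map_mul]
    simp only [Matrix.mul_apply, Fin.sum_univ_two, ha1, ha2, ha3, hb1, hb2, hb3]
    simp [Algebra.TensorProduct.tmul_mul_tmul]
  | add a b ha hb =>
    obtain ⟨ha1, ha2, ha3⟩ := ha
    obtain ⟨hb1, hb2, hb3⟩ := hb
    rw [map_add]
    simp only [Matrix.add_apply, ha1, ha2, ha3, hb1, hb2, hb3]
    simp [TensorProduct.add_tmul, TensorProduct.tmul_add]

/-- `a ⊗ b ↦ a ⊗ op b` -/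
def ll (m : ℕ) : EE m →ₗ[ℂ] Te m :=
  TensorProduct.map LinearMap.id (opLinearEquiv ℂ (M := Fr m)).toLinearMap

theorem ll_tmul (m : ℕ) (a b : Fr m) : ll m (a ⊗ₜ[ℂ] b) = a ⊗ₜ[ℂ] op b := by
  simp [ll]

theorem ll_left (m : ℕ) (a : Fr m) (z : EE m) :
    ll m ((a ⊗ₜ[ℂ] (1 : Fr m)) * z) = (a ⊗ₜ[ℂ] (1 : (Fr m)ᵐᵒᵖ)) * ll m z := by
  induction z using TensorProduct.induction_on with
  | zero => simp
  | tmul c d =>
    rw [Algebra.TensorProduct.tmul_mul_tmul, ll_tmul, ll_tmul, Algebra.TensorProduct.tmul_mul_tmul,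
      one_mul, one_mul]
  | add z z' h h' => rw [mul_add, map_add, h, h', map_add, mul_add]

theorem ll_right (m : ℕ) (b : Fr m) (z : EE m) :
    ll m (z * ((1 : Fr m) ⊗ₜ[ℂ] b)) = ((1 : Fr m) ⊗ₜ[ℂ] op b) * ll m z := by
  induction z using TensorProduct.induction_on with
  | zero => simp
  | tmul c d =>
    rw [Algebra.TensorProduct.tmul_mul_tmul, ll_tmul, ll_tmul, Algebra.TensorProduct.tmul_mul_tmul,
      mul_one, one_mul, op_mul]
  | add z z' h h' => rw [add_mul, map_add, h, h', map_add, mul_add]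

/-- The derivation. -/
def dd (m : ℕ) (k : Fin m) : Fr m →ₗ[ℂ] Te m where
  toFun a := ll m (mm m k a 0 1)
  map_add' a b := by
    rw [map_add, Matrix.add_apply, map_add]
  map_smul' r a := by
    rw [map_smul, Matrix.smul_apply, map_smul, RingHom.id_apply]

end H18

open H18 in
theorem pdx_thm : PDXStmt := by
  intro m
  refine ⟨dd m, ⟨?_, ?_⟩⟩
  · intro k j
    show ll m (mm m k (io j) 0 1) = _
    rw [mm_io]
    by_cases h : j = k
    · simp only [h, if_true]
      have h1 : ll m (1 : EE m) = 1 := by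
        rw [Algebra.TensorProduct.one_def, ll_tmul, op_one, Algebra.TensorProduct.one_def]
      simpa using h1
    · simp [h]
  · intro k a b
    show ll m (mm m k (a * b) 0 1) = _ * ll m (mm m k b 0 1) + _ * ll m (mm m k a 0 1)
    obtain ⟨_, ha2, _⟩ := mm_diag m k a
    obtain ⟨_, _, hb3⟩ := mm_diag m k b
    rw [map_mul, Matrix.mul_apply, Fin.sum_univ_two, ha2, hb3, map_add, ll_left, ll_right]

end Pool.AUT
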